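import Mathlib
import Pool.Agent.Lib.Kak.C7

/-!
# Almost all trajectories of the Kakutani `7x+1` map attain almost bounded values

For the map `C = C_{7,{2,3,5}}` of the problem and every `f : ℕ → ℝ` with `f(n) → ∞`, the set of `n`
whose whole trajectory stays `≥ f(n)` has logarithmic density `0`.

The proof (library `Pool.Agent.Lib.Kak`) adapts Tao's method for the `3x+1` map to a backward
process which is a Markov chain on the units modulo `15`, with the multipliers `2^a 3^b 5^c`.
-/

open Finset Filter Topology

namespace Pool.Agent.Results.MP_13c925_nt.AlmostBounded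

open Classical in
theorem result (f : ℕ → ℝ) (hf : Tendsto f atTop atTop) :
    Tendsto (fun X : ℕ =>
      (∑ n ∈ (Icc 1 X).filter (fun n : ℕ => ∀ k : ℕ, f n ≤
        (((fun m : ℕ => if 2 ∣ m then m / 2 else if 3 ∣ m then m / 3
          else if 5 ∣ m then m / 5 else 7 * m + 1)^[k] n : ℕ) : ℝ)), 1 / (n : ℝ)) /
      Real.log X) atTop (𝓝 0) :=
  Kak.main f hf

end Pool.Agent.Results.MP_13c925_nt.AlmostBounded
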