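import Mathlib
import Pool.Agent.Lib.P13c925.Growth
import Pool.Agent.Lib.P13c925.Cert

/-!
# At least `10^(-8) x^0.81` of the integers up to `x` satisfy the Kakutani 7x+1 conjecture

The proof explores the backward tree of the map (restricted to integers coprime to `30`), keeping
track of residues modulo `7^3 * 15`, in the spirit of the work of Krasikov and Lagarias on the
`3x+1` problem.  The local inequality for the weights is checked by the kernel in
`Pool.Agent.Lib.P13c925.Cert`.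
-/

open Relation Pool.Agent.Lib.P13c925

namespace Pool.Agent.Results.MP_13c925_nt.PowerLowerBound

/-- the weight function -/
noncomputable def V (m : ℕ) : ℕ := Cert.tbl.get (m % 5145)

theorem H1 (m : ℕ) : V m ≤ 4095 := Cert.get_le _ _

theorem H2 (m : ℕ) (h : 0 < V m) : ¬ 3 ∣ m ∧ ¬ 5 ∣ m ∧ ¬ 7 ∣ m := by
  have h1 := Cert.chkc_spec 5145 Cert.cc (m % 5145) (Nat.mod_lt _ (by norm_num)) h
  have key : ∀ p : ℕ, p ∣ 105 → p ∣ 5145 → 1 < p → ¬ p ∣ m := by
    intro p hp hp' hp1 hpm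
    have h2 : p ∣ m % 5145 := (Nat.dvd_mod_iff hp').mpr hpm
    have h3 : p ∣ Nat.gcd (m % 5145) 105 := Nat.dvd_gcd h2 hp
    rw [h1] at h3
    have := Nat.dvd_one.mp h3
    omega
  exact ⟨key 3 (by norm_num) (by norm_num) (by norm_num),
    key 5 (by norm_num) (by norm_num) (by norm_num),
    key 7 (by norm_num) (by norm_num) (by norm_num)⟩

theorem H3 : ∀ r < 7, ∀ x ∈ Cert.LL r, x.1 * r % 7 = 1 ∧
    (∃ a b c : ℕ, x.1 = 2 ^ (a + 1) * 3 ^ b * 5 ^ c) ∧
      x.2 ^ 100 * x.1 ^ 81 ≤ 100000 ^ 100 * 7 ^ 81 ∧ x.1 ≤ 20000 := by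
  intro r hr x hx
  have h := Cert.ok_entries r hr x hx
  unfold Cert.okEntry at h
  rw [Bool.and_eq_true, Bool.and_eq_true] at h
  refine ⟨by simpa using h.1.1, Cert.smooth_entries r hr x hx, Nat.le_of_ble_eq_true h.1.2,
    Nat.le_of_ble_eq_true h.2⟩

theorem H4 (m : ℕ) (hm : 0 < V m) :
    100000 * V m ≤ ((Cert.LL (m % 7)).map (fun x => x.2 * V ((x.1 * m - 1) / 7))).sum := by
  have h := Cert.check_all (m % 36015) (Nat.mod_lt _ (by norm_num))
  have e1 : m % 36015 % 5145 = m % 5145 := Nat.mod_mod_of_dvd _ (by norm_num)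
  have e2 : m % 36015 % 7 = m % 7 := Nat.mod_mod_of_dvd _ (by norm_num)
  have h' : cond (Nat.beq (Cert.tbl.get (m % 36015 % 5145)) 0) true
    (Nat.ble (100000 * Cert.tbl.get (m % 36015 % 5145))
      (Cert.sumd (m % 36015) (Cert.LL (m % 36015 % 7)))) = true := h
  rw [e1, e2] at h'
  have e3 : Nat.beq (Cert.tbl.get (m % 5145)) 0 = false := by
    cases hb : Nat.beq (Cert.tbl.get (m % 5145)) 0 with
    | false => rfl
    | true =>
      have h1 := Nat.eq_of_beq_eq_true hb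
      have h2 : V m = 0 := h1
      omega
  rw [e3] at h'
  have h2 : 100000 * Cert.tbl.get (m % 5145) ≤ Cert.sumd (m % 36015) (Cert.LL (m % 7)) :=
    Nat.le_of_ble_eq_true h'
  rw [Cert.sumd_eq] at h2
  have h3 : ((Cert.LL (m % 7)).map (fun p => p.2 * Cert.tbl.get ((p.1 * (m % 36015) % 36015 - 1) / 7)))
      = ((Cert.LL (m % 7)).map (fun x => x.2 * V ((x.1 * m - 1) / 7))) := by
    apply List.map_congr_left
    intro x hx
    have hx1 := (H3 (m % 7) (Nat.mod_lt _ (by norm_num)) x hx).1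
    have e4 : x.1 * (m % 36015) % 36015 = x.1 * m % 36015 := by
      rw [Nat.mul_mod, Nat.mod_mod, ← Nat.mul_mod]
    have e5 : x.1 * m % 7 = 1 := by
      rw [Nat.mul_mod, Nat.mod_mod] at hx1
      rw [Nat.mul_mod]; exact hx1
    have e6 : (x.1 * m - 1) / 7 % 5145 = (x.1 * m % 36015 - 1) / 7 := by
      omega
    unfold V
    rw [e4, e6]
  rw [h3] at h2
  exact h2

/-- For every `x ≥ 1`, at least `10^(-8) * x^0.81` of the integers `1 ≤ n ≤ x` reach `1` under the
map `C`. -/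
theorem result : ∀ x : ℕ, 1 ≤ x →
    (1 / 10 ^ 8 : ℝ) * (x : ℝ) ^ ((81 : ℝ) / 100) ≤
      (({n : ℕ | 1 ≤ n ∧ n ≤ x ∧ ∃ k : ℕ,
        (fun m : ℕ => if 2 ∣ m then m / 2 else if 3 ∣ m then m / 3
          else if 5 ∣ m then m / 5 else 7 * m + 1)^[k] n = 1}.ncard : ℕ) : ℝ) := by
  intro x hx
  set S : Set ℕ := {n : ℕ | 1 ≤ n ∧ n ≤ x ∧ ∃ k : ℕ,
        (fun m : ℕ => if 2 ∣ m then m / 2 else if 3 ∣ m then m / 3
          else if 5 ∣ m then m / 5 else 7 * m + 1)^[k] n = 1} with hS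
  have hfin : S.Finite := (Set.finite_Icc 1 x).subset (fun n hn => ⟨hn.1, hn.2.1⟩)
  have hxR : (1 : ℝ) ≤ x := by exact_mod_cast hx
  have hmem : ∀ n, 1 ≤ n → n ≤ x → Reaches n → n ∈ S := fun n h1 h2 h3 => ⟨h1, h2, h3⟩
  have h1mem : (1 : ℕ) ∈ S := hmem 1 le_rfl hx ⟨0, rfl⟩
  have hcard1 : (1 : ℝ) ≤ ((S.ncard : ℕ) : ℝ) := by
    exact_mod_cast (Set.ncard_pos hfin).mpr ⟨1, h1mem⟩
  by_cases hx17 : x < 17
  · refine le_trans ?_ hcard1
    have h2 : (x : ℝ) ^ ((81 : ℝ) / 100) ≤ (x : ℝ) := by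
      calc (x : ℝ) ^ ((81 : ℝ) / 100) ≤ (x : ℝ) ^ (1 : ℝ) :=
            Real.rpow_le_rpow_of_exponent_le hxR (by norm_num)
        _ = x := Real.rpow_one _
    have h3 : (x : ℝ) < 17 := by exact_mod_cast hx17
    nlinarith
  · have hx17' : 17 ≤ x := by omega
    have hU17 : U 17 := by unfold U; decide
    have hU1 : U 1 := by unfold U; decide
    have hpar : Par 17 1 := ⟨hU17, hU1, 3, 1, 1, by norm_num⟩
    have hpar1 : Par 1 1 := ⟨hU1, hU1, 3, 0, 0, by norm_num⟩
    have hac : Acyc 17 := by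
      intro h
      have key : ∀ y, TransGen Par 17 y → y = 1 := by
        intro y hy
        induction hy with
        | single h => exact Par.rightUnique h hpar
        | tail _ h2 ih => subst ih; exact Par.rightUnique h2 hpar1
      have := key 17 h
      omega
    have hV17 : V 17 = 671 := Cert.val17
    have hg := growth (V := V) (L := Cert.LL) (W := 100000) (B := 4095) (D := 20000) (p := 81)
      (q := 100) (by norm_num) (by norm_num) (by norm_num) (by norm_num) (by norm_num) H1 H2 H3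
      Cert.nodup_entries H4 (Y := x) (Desc 17 x).card 17 le_rfl (by rw [hV17]; norm_num) (by norm_num)
      hac hx17'
    have hsub : ((Desc 17 x : Finset ℕ) : Set ℕ) ⊆ S := by
      intro n hn
      rw [Finset.mem_coe, mem_Desc] at hn
      have hr17 : Reaches 17 := hpar.reaches ⟨0, rfl⟩
      refine hmem n ?_ hn.1 (reaches_of_reflTransGen hn.2 hr17)
      rcases ReflTransGen.cases_head hn.2 with h | ⟨c, hc, _⟩
      · omega
      · have := hc.1.1
        rcases Nat.eq_zero_or_pos n with h0 | h0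
        · subst h0; simp at this
        · exact h0
    have hcard : ((Desc 17 x).card : ℝ) ≤ ((S.ncard : ℕ) : ℝ) := by
      rw [← Set.ncard_coe_finset]
      exact_mod_cast Set.ncard_le_ncard hsub hfin
    refine le_trans ?_ hcard
    refine le_trans ?_ hg
    rw [hV17]
    have h17 : (17 : ℝ) ^ ((81 : ℝ) / 100) ≤ 17 := by
      calc (17 : ℝ) ^ ((81 : ℝ) / 100) ≤ (17 : ℝ) ^ (1 : ℝ) :=
            Real.rpow_le_rpow_of_exponent_le (by norm_num) (by norm_num)
        _ = 17 := Real.rpow_one _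
    have h17pos : (0 : ℝ) < (17 : ℝ) ^ ((81 : ℝ) / 100) := by positivity
    have hxpos : (0 : ℝ) ≤ (x : ℝ) ^ ((81 : ℝ) / 100) := by positivity
    push_cast
    rw [Real.div_rpow (by positivity) (by norm_num)]
    rw [mul_div_assoc', le_div_iff₀ h17pos]
    calc (1 / 10 ^ 8 : ℝ) * (x : ℝ) ^ ((81 : ℝ) / 100) * (17 : ℝ) ^ ((81 : ℝ) / 100)
        ≤ (1 / 10 ^ 8 : ℝ) * (x : ℝ) ^ ((81 : ℝ) / 100) * 17 := by gcongr
      _ ≤ 1 / (4095 * 20000) * 671 * (x : ℝ) ^ ((81 : ℝ) / 100) := by nlinarith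

end Pool.Agent.Results.MP_13c925_nt.PowerLowerBound
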