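import Mathlib
import Pool.Agent.Lib.KakU.Near

/-!
# Undecidability arbitrarily near the Kakutani `7x+1` map

`kakutani` is the map `C` of the problem. It is affine on the residue classes modulo 30. The theorem gives, for every large `j`,
a set `E` of at most `29.98 ^ j` of the `30 ^ j` residue classes modulo `30 ^ j`, such that among the maps of the same kind
(affine on residue classes, `tableMap`) which agree with `C` outside of `E` and on a given initial segment, the property
that every trajectory reaches 1 is as hard as possible.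
-/

set_option autoImplicit false

namespace Pool.Agent.Results.MP_13c925_nt.UndecidableNear

/-- the map `C` of the problem -/
def kakutani (n : ℕ) : ℕ :=
  if 2 ∣ n then n / 2 else if 3 ∣ n then n / 3 else if 5 ∣ n then n / 5 else 7 * n + 1

/-- for `L = [(a_1, b_1), …, (a_m, b_m)]` the map `m k + r ↦ a_r k + b_r`, `k ≥ 0`, `1 ≤ r ≤ m`, of the positive
integers -/
def tableMap (L : List (ℕ × ℕ)) (n : ℕ) : ℕ :=
  (L.getD ((n - 1) % L.length) (0, 0)).1 * ((n - 1) / L.length) + (L.getD ((n - 1) % L.length) (0, 0)).2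

/-- Let all `n ≤ K` reach 1 under `C`. For all large `j` there is a set `E` of at most `29.98 ^ j` residues modulo `30 ^ j`
such that for every recursively enumerable relation `R` there are computable `x ↦ L x` (tables with positive entries) and
`y ↦ s y ≥ 1` with: the map of `L x` agrees with `C` at the `n ≤ K` and at the `n` with `n % 30 ^ j ∉ E`; each of its
trajectories reaches 1 or is unbounded; `s y` reaches 1 if and only if `R x y`; and all `n` reach 1 if and only if
`R x y` for all `y`. -/
theorem result (K : ℕ) (hK : ∀ n, 0 < n → n ≤ K → ∃ i, kakutani^[i] n = 1) :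
    ∃ j₀ : ℕ, ∀ j ≥ j₀, ∃ E : Finset ℕ, E ⊆ Finset.range (30 ^ j) ∧ (E.card : ℝ) ≤ 29.98 ^ j ∧
      ∀ R : ℕ → ℕ → Prop, (REPred fun q : ℕ × ℕ => R q.1 q.2) →
        ∃ (L : ℕ → List (ℕ × ℕ)) (s : ℕ → ℕ), Computable L ∧ Computable s ∧ (∀ y, 0 < s y) ∧
          ∀ x, L x ≠ [] ∧ (∀ e ∈ L x, 0 < e.1 ∧ 0 < e.2) ∧
          (∀ n, 0 < n → (n ≤ K ∨ n % 30 ^ j ∉ E) → tableMap (L x) n = kakutani n) ∧
          (∀ n, 0 < n → (∃ i, (tableMap (L x))^[i] n = 1) ∨ ∀ M, ∃ i, M < (tableMap (L x))^[i] n) ∧
          (∀ y, (∃ i, (tableMap (L x))^[i] (s y) = 1) ↔ R x y) ∧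
          ((∀ n, 0 < n → ∃ i, (tableMap (L x))^[i] n = 1) ↔ ∀ y, R x y) := by
  have h := KakU.near K hK
  norm_num only at h ⊢
  exact h

end Pool.Agent.Results.MP_13c925_nt.UndecidableNear
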